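import Pool.Agent.H81.LE.Targets

/-! # le_modules NFC, GEN, MON (helper4) -/

open scoped ENNReal MatrixGroups
open MeasureTheory Filter

namespace Pool.Agent.H4.LE

open Pool.Agent.H81.LE

/-! ## NFC -/

lemma nu_univ (p q : ℝ) (h : p < q) : nu p q Set.univ ≤ 1 := by
  unfold nu
  rw [Measure.smul_apply, Measure.restrict_apply MeasurableSet.univ, Set.univ_inter,
    Real.volume_Icc, smul_eq_mul, ENNReal.inv_mul_cancel]
  · exact (ENNReal.ofReal_pos.2 (by linarith)).ne'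
  · exact ENNReal.ofReal_ne_top

theorem nfc (hC : T_CRIT.{0, 0}) (hP : T_PHI) (hO : T_OVL) : T_NFC := by
  intro Γ p q hpq hN
  refine hC Γ ℝ (fun g => ?_) (1 / 2) (by norm_num) fun N => ?_
  · exact (g : ℝ ≃o ℝ).continuous.measurable
  obtain ⟨δ, hδ, hO'⟩ := hO p q hpq
  obtain ⟨s, w, hw, hs⟩ := hN N δ hδ
  obtain ⟨φ, Z, hZ, hφ⟩ := hP N w hw
  have hκ : ∀ i, ∃ κ : Measure ℝ, κ ≤ nu p q ∧ κ.map (s i) ≤ nu p q ∧
      (1 / 2 : ℝ≥0∞) ≤ κ Set.univ := fun i => by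
    obtain ⟨-, h1, h2, h3, h4, h5⟩ := hs i
    exact hO' (s i) (w i) h1 h2 h3 h4 h5
  choose κ hκ1 hκ2 hκ3 using hκ
  refine ⟨fun i => ⟨s i, (hs i).1⟩, nu p q, κ, φ, nu_univ p q hpq, fun i =>
    ⟨hκ1 i, hκ2 i, hκ3 i, ?_⟩⟩
  have hae : ∀ᵐ x ∂(nu p q), x ∈ Set.Icc p q ∧ x ∉ Z := by
    unfold nu
    refine Measure.ae_smul_measure ?_ _
    have h1 : ∀ᵐ x ∂(volume.restrict (Set.Icc p q)), x ∈ Set.Icc p q :=
      ae_restrict_mem measurableSet_Icc
    have h2 : ∀ᵐ x ∂(volume.restrict (Set.Icc p q)), x ∉ Z :=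
      ae_restrict_of_ae (hZ.ae_notMem _)
    filter_upwards [h1, h2] with x h3 h4
    exact ⟨h3, h4⟩
  have hae' : ∀ᵐ x ∂(κ i), x ∈ Set.Icc p q ∧ x ∉ Z :=
    (Measure.absolutelyContinuous_of_le (hκ1 i)).ae_le hae
  filter_upwards [hae'] with x hx
  obtain ⟨h1, h2⟩ := (hs i).2.2.2.2.2 x hx.1
  exact hφ x hx.2 i (s i x) h1 h2

/-! ## GEN -/

lemma W_map {R S : Type*} [CommRing R] [CommRing S] (f : R →+* S) (s : ℕ) (e : R) :
    Matrix.SpecialLinearGroup.map f (W s e) = W s (f e) := by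
  ext i j
  rw [Matrix.SpecialLinearGroup.map_apply_coe, RingHom.mapMatrix_apply, Matrix.map_apply]
  unfold W
  fin_cases i <;> fin_cases j <;> simp [map_ofNat f 2]

lemma lift_comp {R S : Type*} [CommRing R] [CommRing S] (f : R →+* S) (N : ℕ) (e : R) :
    (Matrix.SpecialLinearGroup.map f).comp
      (FreeGroup.lift fun i : Fin N => (W ((i : ℕ) + 1) e : SL(2, R))) =
      FreeGroup.lift fun i : Fin N => (W ((i : ℕ) + 1) (f e) : SL(2, S)) := by
  refine FreeGroup.ext_hom _ _ fun i => ?_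
  rw [MonoidHom.comp_apply, FreeGroup.lift_apply_of, FreeGroup.lift_apply_of, W_map]

lemma slmap_injective {R S : Type*} [CommRing R] [CommRing S] (f : R →+* S)
    (hf : Function.Injective f) :
    Function.Injective (Matrix.SpecialLinearGroup.map (n := Fin 2) f) := by
  intro a b h
  ext i j
  have h1 := congrArg (fun m : SL(2, S) => m i j) h
  simp only [Matrix.SpecialLinearGroup.map_apply_coe, RingHom.mapMatrix_apply,
    Matrix.map_apply] at h1
  exact hf h1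

theorem gen (hPP : T_PP) (hPL : T_PL) : T_GEN := by
  intro c hc0 hc1 N
  obtain ⟨K, _, v, σ, hchar, hθ⟩ := hPL c hc0 hc1
  set cc : Algebra.adjoin ℤ {c} := ⟨c, Algebra.subset_adjoin (Set.mem_singleton c)⟩ with hcc
  set θ := v (σ cc) with hθdef
  have hev : ∀ᶠ k : ℕ in atTop, ∀ k' ∈ Finset.Icc 1 (2 * N + 4), 4 < (θ ^ k) ^ 2 * v (k' : K) := by
    rw [Filter.eventually_all_finset]
    intro k' hk'
    have hpos : 0 < v (k' : K) := by
      refine v.pos ?_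
      have : k' ≠ 0 := by
        have := (Finset.mem_Icc.1 hk').1
        omega
      exact_mod_cast this
    have h1 : Tendsto (fun k : ℕ => (θ ^ k) ^ 2 * v (k' : K)) atTop atTop := by
      refine Tendsto.atTop_mul_const hpos ?_
      have h2 := tendsto_pow_atTop_atTop_of_one_lt hθ
      exact (tendsto_pow_atTop two_ne_zero).comp h2
    exact h1.eventually_gt_atTop 4
  obtain ⟨k₀, hk₀⟩ := eventually_atTop.1 hev
  refine ⟨k₀, fun k hk e he => ?_⟩
  -- lift `e` to the ring generated by `c`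
  obtain ⟨e₀, he₀, hve⟩ : ∃ e₀ : Algebra.adjoin ℤ {c}, (e₀ : ℝ) = e ∧ v (σ e₀) = θ ^ k := by
    rcases he with he | he
    · refine ⟨cc ^ k, ?_, ?_⟩
      · rw [he]; simp [hcc]
      · rw [map_pow, map_pow]
    · refine ⟨-cc ^ k, ?_, ?_⟩
      · rw [he]; simp [hcc]
      · rw [map_neg, v.map_neg, map_pow, map_pow]
  have hK := hPP K v N (σ e₀) (fun k' h1 h2 => by
    rw [hve]
    exact hk₀ k hk k' (Finset.mem_Icc.2 ⟨h1, h2⟩))
  rw [← lift_comp σ N e₀, MonoidHom.coe_comp] at hK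
  have hinj := hK.of_comp
  have h1 := lift_comp (Algebra.adjoin ℤ {c}).val.toRingHom N e₀
  have h2 : (Algebra.adjoin ℤ {c}).val.toRingHom e₀ = e := he₀
  rw [h2] at h1
  rw [← h1, MonoidHom.coe_comp]
  refine (slmap_injective _ ?_).comp hinj
  exact Subtype.coe_injective

/-! ## MON -/

theorem mon (hG : T_GEN) (hE : T_EL) : T_MON := by
  intro A hA Γ hΓ N δ hδ
  -- an element of `A` in `(0,1)`
  obtain ⟨c, hcA, hc0, hc1⟩ : ∃ c ∈ A, 0 < c ∧ c < 1 := by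
    by_contra hcon
    push Not at hcon
    apply hA
    rw [eq_bot_iff]
    intro x hx
    have hf : x - ⌊x⌋ ∈ A := A.sub_mem hx (intCast_mem A _)
    have h0 : 0 ≤ x - ⌊x⌋ := by linarith [Int.floor_le x]
    have h1 : x - ⌊x⌋ < 1 := by linarith [Int.lt_floor_add_one x]
    have h2 : x - ⌊x⌋ = 0 := by
      by_contra hne
      exact absurd (hcon _ hf (lt_of_le_of_ne h0 (Ne.symm hne))) (not_le.2 h1)
    have h3 : x = (⌊x⌋ : ℝ) := by linarith
    rw [h3]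
    exact intCast_mem _ _
  obtain ⟨k₀, hk₀⟩ := hG c hc0 hc1 N
  set η : ℝ := min 1 (δ / (10 * ((N : ℝ) + 1) ^ 2)) with hη
  have hηpos : 0 < η := lt_min one_pos (by positivity)
  obtain ⟨k, hk, hkη⟩ : ∃ k, k₀ ≤ k ∧ c ^ k < η := by
    have h1 := (tendsto_pow_atTop_nhds_zero_of_lt_one hc0.le hc1).eventually
      (eventually_lt_nhds hηpos)
    obtain ⟨k, h2, h3⟩ := (h1.and (eventually_ge_atTop k₀)).exists
    exact ⟨k, h3, h2⟩
  set e := c ^ k with he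
  have hepos : 0 < e := pow_pos hc0 k
  have heA : e ∈ A := A.pow_mem hcA k
  have he1 : e ≤ 1 := (hkη.le.trans (min_le_left _ _))
  have heδ : 10 * ((N : ℝ) + 1) ^ 2 * e ≤ δ := by
    have := hkη.le.trans (min_le_right _ _)
    rw [le_div_iff₀ (by positivity)] at this
    linarith
  have hf := fun i : Fin N => hE A e heA hepos ((i : ℕ) + 1) (by omega)
  choose f hf1 hf2 using hf
  refine ⟨f, fun i => W ((i : ℕ) + 1) e, hk₀ k hk e (Or.inl rfl), fun i => ?_⟩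
  have hs : (((i : ℕ) + 1 : ℕ) : ℝ) ≤ N := by
    have := i.2
    exact_mod_cast this
  have hs0 : (1 : ℝ) ≤ (((i : ℕ) + 1 : ℕ) : ℝ) := by
    push_cast
    linarith [Nat.cast_nonneg (α := ℝ) (i : ℕ)]
  set t : ℝ := (((i : ℕ) + 1 : ℕ) : ℝ) with ht
  have hN1 : (1 : ℝ) ≤ N := hs0.trans hs
  have b1 : t * e ≤ (N : ℝ) ^ 2 * e := by
    refine mul_le_mul_of_nonneg_right ?_ hepos.le
    nlinarith
  have b2 : t ^ 2 * e ≤ (N : ℝ) ^ 2 * e := by
    refine mul_le_mul_of_nonneg_right ?_ hepos.le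
    nlinarith
  have b3 : (N : ℝ) ^ 2 * e ≤ ((N : ℝ) + 1) ^ 2 * e := by
    refine mul_le_mul_of_nonneg_right ?_ hepos.le
    nlinarith
  have b4 : e ≤ ((N : ℝ) + 1) ^ 2 * e := by
    have : (1 : ℝ) ≤ ((N : ℝ) + 1) ^ 2 := by nlinarith
    nlinarith
  have b5 : 0 ≤ ((N : ℝ) + 1) ^ 2 * e := by positivity
  have p1 : t * e ^ 2 ≤ t * e := by
    have : e ^ 2 ≤ e := by nlinarith
    nlinarith
  have p2 : t ^ 2 * e ^ 3 ≤ t ^ 2 * e := by
    have : e ^ 3 ≤ e := by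
      have h1 : e ^ 2 ≤ 1 := by nlinarith
      nlinarith
    nlinarith [sq_nonneg t]
  have q1 : 0 ≤ t * e ^ 2 := by positivity
  have q2 : 0 ≤ 2 * t * e + t ^ 2 * e ^ 3 := by positivity
  refine ⟨hΓ _ (hf1 i), ?_, ?_, ?_, ?_, hf2 i⟩
  · change |1 + t * e ^ 2 - 1| ≤ δ
    rw [add_sub_cancel_left, abs_of_nonneg q1]
    linarith
  · change |2 * t * e + t ^ 2 * e ^ 3| ≤ δ
    rw [abs_of_nonneg q2]
    linarith
  · change |e| ≤ δ
    rw [abs_of_pos hepos]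
    linarith
  · change |1 + t * e ^ 2 - 1| ≤ δ
    rw [add_sub_cancel_left, abs_of_nonneg q1]
    linarith

end Pool.Agent.H4.LE
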