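import Pool.Agent.H81.LE.Targets

/-! # le_modules HEAD, PHI (helper4) -/

open scoped ENNReal MatrixGroups
open Matrix.SpecialLinearGroup

namespace Pool.Agent.H4.LE

open Pool.Agent.H81.LE

theorem head : T_HEAD := by
  intro N
  refine ⟨fun g => (FreeGroup.toWord g).head?, fun g i => ?_⟩
  have h0 : (FreeGroup.of i * g).toWord =
      FreeGroup.reduce ((i, true) :: g.toWord) := by
    rw [FreeGroup.toWord_mul, FreeGroup.toWord_of]
    rfl
  change (FreeGroup.of i * g).toWord.head? = _ ∨ g.toWord.head? = _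
  rw [h0, FreeGroup.reduce.cons, FreeGroup.reduce_toWord]
  rcases hg : g.toWord with _ | ⟨hd, tl⟩
  · left
    rfl
  · by_cases h : (i, true).1 = hd.1 ∧ (i, true).2 = !hd.2
    · right
      rcases hd with ⟨j, b⟩
      obtain ⟨h1, h2⟩ := h
      simp only at h1 h2
      subst h1
      cases b
      · rfl
      · exact absurd h2 (by decide)
    · left
      simp only
      rw [if_neg h]
      rfl

/-- the action of the free group -/
noncomputable def rho {N : ℕ} (w : Fin N → SL(2, ℝ)) : FreeGroup (Fin N) →* GL (Fin 2) ℝ :=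
  toGL.comp (FreeGroup.lift w)

lemma rho_entry {N : ℕ} (w : Fin N → SL(2, ℝ)) (g : FreeGroup (Fin N)) (a b : Fin 2) :
    (rho w g) a b = (FreeGroup.lift w g) a b := rfl

/-- fixed points of a nontrivial element -/
lemma fix_finite {N : ℕ} (w : Fin N → SL(2, ℝ)) (hw : Function.Injective (FreeGroup.lift w))
    (g : FreeGroup (Fin N)) (hg : g ≠ 1) :
    {x : ℝ | rho w g • (x : OnePoint ℝ) = x}.Finite := by
  classical
  set M : SL(2, ℝ) := FreeGroup.lift w g with hM
  have hdet : M 0 0 * M 1 1 - M 0 1 * M 1 0 = 1 := by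
    rw [← Matrix.det_fin_two]
    exact M.2
  -- the matrix is not scalar
  have hns : ¬ (M 1 0 = 0 ∧ M 1 1 - M 0 0 = 0 ∧ M 0 1 = 0) := by
    rintro ⟨h1, h2, h3⟩
    have h4 : M 1 1 = M 0 0 := by linarith
    have h5 : M 0 0 * M 0 0 = 1 := by
      rw [h1, h4] at hdet
      linarith
    have h6 : M ^ 2 = 1 := by
      rw [pow_two]
      ext i j
      rw [Matrix.SpecialLinearGroup.coe_mul, Matrix.mul_apply, Fin.sum_univ_two]
      fin_cases i <;> fin_cases j
      · change M 0 0 * M 0 0 + M 0 1 * M 1 0 = 1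
        rw [h1, h5]; ring
      · change M 0 0 * M 0 1 + M 0 1 * M 1 1 = 0
        rw [h3]; ring
      · change M 1 0 * M 0 0 + M 1 1 * M 1 0 = 0
        rw [h1]; ring
      · change M 1 0 * M 0 1 + M 1 1 * M 1 1 = 1
        rw [h1, h4, h5]; ring
    have h7 : FreeGroup.lift w (g ^ 2) = FreeGroup.lift w 1 := by
      rw [map_pow, map_one, ← hM, h6]
    have h8 : g ^ 2 = 1 := hw h7
    have h9 : g ^ 2 = 1 ^ 2 := by rw [h8, one_pow]
    exact hg (pow_left_injective two_ne_zero h9)
  let P : Polynomial ℝ := Polynomial.C (M 1 0) * Polynomial.X ^ 2 +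
    Polynomial.C (M 1 1 - M 0 0) * Polynomial.X - Polynomial.C (M 0 1)
  have hP : P ≠ 0 := by
    intro h
    apply hns
    have c0 : P.coeff 0 = - M 0 1 := by simp [P]
    have c1 : P.coeff 1 = M 1 1 - M 0 0 := by simp [P, Polynomial.coeff_C, Polynomial.coeff_X]
    have c2 : P.coeff 2 = M 1 0 := by simp [P, Polynomial.coeff_C, Polynomial.coeff_X]
    rw [h, Polynomial.coeff_zero] at c0 c1 c2
    exact ⟨c2.symm, c1.symm, by linarith⟩
  refine (P.finite_setOfPred_isRoot hP).subset fun x hx => ?_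
  have hx' : rho w g • (x : OnePoint ℝ) = x := hx
  rw [OnePoint.smul_some_eq_ite] at hx'
  simp only [rho_entry, ← hM] at hx'
  split_ifs at hx' with h0
  · exact absurd hx' (OnePoint.infty_ne_coe x)
  · have h1 : (M 0 0 * x + M 0 1) / (M 1 0 * x + M 1 1) = x := OnePoint.coe_injective hx'
    rw [div_eq_iff h0] at h1
    change P.IsRoot x
    rw [Polynomial.IsRoot.def]
    simp only [P, Polynomial.eval_sub, Polynomial.eval_add, Polynomial.eval_mul,
      Polynomial.eval_C, Polynomial.eval_pow, Polynomial.eval_X]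
    linarith

theorem phi : T_PHI := by
  classical
  intro N w hw
  let r : Setoid (OnePoint ℝ) :=
    { r := fun x y => ∃ g : FreeGroup (Fin N), rho w g • x = y
      iseqv := {
        refl := fun x => ⟨1, by rw [map_one, one_smul]⟩
        symm := by
          rintro x y ⟨g, rfl⟩
          exact ⟨g⁻¹, by rw [smul_smul, ← map_mul, inv_mul_cancel, map_one, one_smul]⟩
        trans := by
          rintro x y z ⟨g, rfl⟩ ⟨h, rfl⟩
          exact ⟨h * g, by rw [map_mul, mul_smul]⟩ } }
  let o : OnePoint ℝ → OnePoint ℝ := fun x => (Quotient.mk r x).out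
  have ho : ∀ x, ∃ g : FreeGroup (Fin N), rho w g • o x = x := fun x =>
    Quotient.exact (Quotient.out_eq (Quotient.mk r x))
  have hoeq : ∀ x y, (∃ g : FreeGroup (Fin N), rho w g • x = y) → o x = o y := by
    intro x y h
    have : Quotient.mk r x = Quotient.mk r y := Quotient.sound h
    simp only [o, this]
  choose ψ hψ using ho
  refine ⟨fun x => ψ x, ⋃ g ∈ {g : FreeGroup (Fin N) | g ≠ 1},
    {x : ℝ | rho w g • (x : OnePoint ℝ) = x}, ?_, ?_⟩
  · have hc : Countable (FreeGroup (Fin N)) := FreeGroup.toWord_injective.countable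
    exact Set.Countable.biUnion (Set.to_countable _) fun g hg => (fix_finite w hw g hg).countable
  · intro x hx i y h0 hy
    have hxy : rho w (FreeGroup.of i) • (x : OnePoint ℝ) = y := by
      rw [OnePoint.smul_some_eq_ite]
      simp only [rho_entry, FreeGroup.lift_apply_of]
      rw [if_neg h0, hy]
    have hoo : o x = o y := hoeq _ _ ⟨_, hxy⟩
    have h1 := hψ (x : OnePoint ℝ)
    have h2 := hψ (y : OnePoint ℝ)
    rw [← hoo] at h2
    by_contra hne
    apply hx
    have hne' : (ψ (x : OnePoint ℝ)) * ((FreeGroup.of i * ψ (x : OnePoint ℝ))⁻¹ *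
        ψ (y : OnePoint ℝ)) * (ψ (x : OnePoint ℝ))⁻¹ ≠ 1 := by
      intro h
      apply hne
      have h3 : (FreeGroup.of i * ψ (x : OnePoint ℝ))⁻¹ * ψ (y : OnePoint ℝ) = 1 := by
        have h4 := congrArg (fun g => (ψ (x : OnePoint ℝ))⁻¹ * g * ψ (x : OnePoint ℝ)) h
        simpa [mul_assoc] using h4
      exact (inv_mul_eq_one.1 h3).symm
    simp only [Set.mem_iUnion, Set.mem_ofPred_eq]
    refine ⟨_, hne', ?_⟩
    have h5 : rho w (ψ (x : OnePoint ℝ))⁻¹ • (x : OnePoint ℝ) = o x := by
      rw [map_inv, inv_smul_eq_iff]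
      exact h1.symm
    have h6 : rho w (FreeGroup.of i * ψ (x : OnePoint ℝ)) • o x = y := by
      rw [map_mul, mul_smul, h1, hxy]
    have h7 : rho w (FreeGroup.of i * ψ (x : OnePoint ℝ))⁻¹ • (y : OnePoint ℝ) = o x := by
      rw [← h6, smul_smul, ← map_mul, inv_mul_cancel, map_one, one_smul]
    rw [map_mul, mul_smul, h5, map_mul, mul_smul, map_mul, mul_smul, h2, h7, h1]

end Pool.Agent.H4.LE
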